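import Pool.Agent.N737.GV.G8

/-!
# How often long intervals contain no prime values `m ^ 2 + 1`, and the frequency of large errors
# in the formula of Hardy and Littlewood

No hypothesis is assumed.  For a nonconstant integer polynomial `f` (for example `f = x ^ 2 + 1`)
there is `c > 0` such that, for every `δ > 0` and all `T` between a constant and `log X`, at least
`X exp (- T)` of the integers `n` of any interval of length `X` are such that all the values
`f (n + k)`, `1 ≤ k ≤ c log X log T`, have a prime factor at most `X ^ δ`.  With `T` fixed: however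
large `A` is, a positive proportion of the intervals of length `A log X` is free of prime values;
with `T = log X` one recovers the existence of runs of length `c log X log log X`.

As a consequence the error term of the formula of Hardy and Littlewood is at least
`c κ (log X / log M) log T` at no fewer than `X exp (- T) / 2` of the integers of `[M, M + X]`.
-/

set_option autoImplicit false

namespace Pool.Agent.Results.MP_f1a94e_nt.VoidFrequency

open Finset Polynomial MeasureTheory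

/-- the integers `n` with `M ≤ n` and `n + F ≤ M + X` such that each of the values
`f (n + k)`, `1 ≤ k ≤ F`, has a prime factor `p ≤ y` -/
def Starts (f : ℤ[X]) (M X F y : ℝ) : Set ℤ :=
  {n : ℤ | M ≤ n ∧ (n : ℝ) + F ≤ M + X ∧
    ∀ k : ℤ, 1 ≤ k → (k : ℝ) ≤ F → ∃ p : ℕ, p.Prime ∧ (p : ℝ) ≤ y ∧ (p : ℤ) ∣ f.eval (n + k)}

/-- `P f N` is the number of `1 ≤ m ≤ N` with `|f m|` prime; for `f = x ^ 2 + 1` it is the number of
primes `m ^ 2 + 1` with `1 ≤ m ≤ N` -/
def P (f : ℤ[X]) (N : ℕ) : ℕ := ((Icc 1 N).filter (fun m : ℕ => (f.eval (m : ℤ)).natAbs.Prime)).card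

open scoped Classical in
/-- For every nonconstant integer polynomial `f` there is `c > 0` such that
(1) for every `δ > 0` there are `T₀`, `X₀` such that for all `X ≥ X₀`, `T₀ ≤ T ≤ log X` and all real
`M` at least `X exp (- T)` integers `n ≥ M`, `n ≤ M + X - c log X log T`, are such that each `f (n + k)`,
`1 ≤ k ≤ c log X log T`, has a prime factor `≤ X ^ δ`;
and there are `T₀`, `X₀` such that for all `X ≥ X₀`, `T₀ ≤ T ≤ log X` and all integers `M ≥ X`
(2) at least `X exp (- T)` integers `n` of `[M, M + X]` are such that no `|f (n + k)|`,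
`1 ≤ k ≤ c log X log T`, is prime;
(3) for every `κ ≥ 0` at least `X exp (- T) / 2` integers `N` of `[M, M + X]` are such that
`|P f N - κ ∫_2^N dt / log t| ≥ c κ (log X / log M) log T`.
(4) In particular (`f = x ^ 2 + 1`, `M = ⌈X⌉`): for all `κ > 0` and `K` there is `η > 0` such that for all large
`Y` at least `η Y` integers `N ≤ Y` are such that the number of the primes `m ^ 2 + 1`, `1 ≤ m ≤ N`, differs from
`κ ∫_2^N dt / log t` by more than `K`. -/
theorem result :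
    (∀ f : ℤ[X], 0 < f.natDegree → ∃ c : ℝ, 0 < c ∧
      (∀ δ : ℝ, 0 < δ → ∃ T₀ X₀ : ℝ, ∀ X : ℝ, X₀ ≤ X → ∀ T : ℝ, T₀ ≤ T → T ≤ Real.log X →
        ∀ M : ℝ, X * Real.exp (-T) ≤
          ((Starts f M X (c * (Real.log X * Real.log T)) (X ^ δ)).ncard : ℝ)) ∧
      (∃ T₀ X₀ : ℝ, ∀ X : ℝ, X₀ ≤ X → ∀ T : ℝ, T₀ ≤ T → T ≤ Real.log X → ∀ M : ℕ, X ≤ M →
        X * Real.exp (-T) ≤ (((Icc M (M + ⌊X⌋₊)).filter (fun n : ℕ =>
          ∀ k : ℕ, 1 ≤ k → (k : ℝ) ≤ c * (Real.log X * Real.log T) →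
            ¬ (f.eval ((n + k : ℕ) : ℤ)).natAbs.Prime)).card : ℝ) ∧
        ∀ κ : ℝ, 0 ≤ κ → X * Real.exp (-T) / 2 ≤ (((Icc M (M + ⌊X⌋₊)).filter (fun N : ℕ =>
          c * κ * (Real.log X / Real.log M) * Real.log T ≤
            |(P f N : ℝ) - κ * ∫ t in (2 : ℝ)..N, 1 / Real.log t|)).card : ℝ))) ∧
    (∀ κ K : ℝ, 0 < κ → ∃ η : ℝ, 0 < η ∧ ∃ Y₀ : ℝ, ∀ Y : ℝ, Y₀ ≤ Y → η * Y ≤
      (((Icc 1 ⌊Y⌋₊).filter (fun N : ℕ => K <
        |(((Icc 1 N).filter (fun m : ℕ => (m ^ 2 + 1).Prime)).card : ℝ) -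
          κ * ∫ t in (2 : ℝ)..N, 1 / Real.log t|)).card : ℝ)) := by
  have main : ∀ f : ℤ[X], 0 < f.natDegree → ∃ c : ℝ, 0 < c ∧
      (∀ δ : ℝ, 0 < δ → ∃ T₀ X₀ : ℝ, ∀ X : ℝ, X₀ ≤ X → ∀ T : ℝ, T₀ ≤ T → T ≤ Real.log X →
        ∀ M : ℝ, X * Real.exp (-T) ≤
          ((Starts f M X (c * (Real.log X * Real.log T)) (X ^ δ)).ncard : ℝ)) ∧
      (∃ T₀ X₀ : ℝ, ∀ X : ℝ, X₀ ≤ X → ∀ T : ℝ, T₀ ≤ T → T ≤ Real.log X → ∀ M : ℕ, X ≤ M →
        X * Real.exp (-T) ≤ (((Icc M (M + ⌊X⌋₊)).filter (fun n : ℕ =>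
          ∀ k : ℕ, 1 ≤ k → (k : ℝ) ≤ c * (Real.log X * Real.log T) →
            ¬ (f.eval ((n + k : ℕ) : ℤ)).natAbs.Prime)).card : ℝ) ∧
        ∀ κ : ℝ, 0 ≤ κ → X * Real.exp (-T) / 2 ≤ (((Icc M (M + ⌊X⌋₊)).filter (fun N : ℕ =>
          c * κ * (Real.log X / Real.log M) * Real.log T ≤
            |(P f N : ℝ) - κ * ∫ t in (2 : ℝ)..N, 1 / Real.log t|)).card : ℝ)) := by
    intro f hd
    obtain ⟨c₁, hc₁, h₁⟩ := Pool.Agent.N737.GV.voids_all f hd
    obtain ⟨c₂, hc₂, T₂, X₂, h₂⟩ := Pool.Agent.N737.GV.nonprime_runs f hd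
    obtain ⟨c₃, hc₃, T₃, X₃, h₃⟩ := Pool.Agent.N737.GV.error_freq f hd
    have m1 : min c₁ (min c₂ c₃) ≤ c₁ := min_le_left _ _
    have m2 : min c₁ (min c₂ c₃) ≤ c₂ := (min_le_right _ _).trans (min_le_left _ _)
    have m3 : min c₁ (min c₂ c₃) ≤ c₃ := (min_le_right _ _).trans (min_le_right _ _)
    refine ⟨min c₁ (min c₂ c₃), by positivity, fun δ hδ => ?_, max (max T₂ T₃) 1, max (max X₂ X₃) 3,
      fun X hX T hT hTX M hM => ?_⟩
    · obtain ⟨T₁, X₁, h₁⟩ := h₁ δ hδ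
      refine ⟨max T₁ 1, max X₁ 1, fun X hX T hT hTX M => ?_⟩
      have hT1 : 1 ≤ T := (le_max_right _ _).trans hT
      have hX1 : 1 ≤ X := (le_max_right _ _).trans hX
      have hlog : 0 ≤ Real.log X * Real.log T :=
        mul_nonneg (Real.log_nonneg hX1) (Real.log_nonneg hT1)
      have hle := mul_le_mul_of_nonneg_right m1 hlog
      refine (h₁ X ((le_max_left _ _).trans hX) T ((le_max_left _ _).trans hT) hTX M).trans ?_
      have : (Pool.Agent.N737.GV.VSet f M X (c₁ * (Real.log X * Real.log T)) (X ^ δ)).ncard ≤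
          (Starts f M X (min c₁ (min c₂ c₃) * (Real.log X * Real.log T)) (X ^ δ)).ncard := by
        apply Set.ncard_le_ncard
        · rintro n ⟨a1, a2, a3⟩
          exact ⟨a1, by linarith, fun k hk1 hk2 => a3 k hk1 (hk2.trans hle)⟩
        · exact Pool.Agent.N737.GV.VSet_finite f M X _ _
            (mul_nonneg (by positivity) hlog)
      exact_mod_cast this
    · have hT1 : 1 ≤ T := (le_max_right _ _).trans hT
      have hX3 : 3 ≤ X := (le_max_right _ _).trans hX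
      have hX1 : 1 ≤ X := by linarith
      have hlog : 0 ≤ Real.log X * Real.log T :=
        mul_nonneg (Real.log_nonneg hX1) (Real.log_nonneg hT1)
      refine ⟨?_, fun κ hκ => ?_⟩
      · refine (h₂ X ((le_max_left _ _).trans ((le_max_left _ _).trans hX)) T
          ((le_max_left _ _).trans ((le_max_left _ _).trans hT)) hTX M hM).trans ?_
        have hle := mul_le_mul_of_nonneg_right m2 hlog
        have : (Pool.Agent.N737.GV.NSet f M X (c₂ * (Real.log X * Real.log T))).card ≤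
            ((Icc M (M + ⌊X⌋₊)).filter (fun n : ℕ =>
              ∀ k : ℕ, 1 ≤ k → (k : ℝ) ≤ min c₁ (min c₂ c₃) * (Real.log X * Real.log T) →
                ¬ (f.eval ((n + k : ℕ) : ℤ)).natAbs.Prime)).card := by
          apply Finset.card_le_card
          intro n hn
          rw [Pool.Agent.N737.GV.NSet, Finset.mem_filter] at hn
          rw [Finset.mem_filter]
          exact ⟨hn.1, fun k hk1 hk2 => hn.2.2 k hk1 (hk2.trans hle)⟩
        exact_mod_cast this
      · refine (h₃ X ((le_max_right _ _).trans ((le_max_left _ _).trans hX)) T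
          ((le_max_right _ _).trans ((le_max_left _ _).trans hT)) hTX M hM κ hκ).trans ?_
        have hlM : 0 ≤ Real.log M := Real.log_nonneg (by linarith)
        have hlX : 0 ≤ Real.log X := Real.log_nonneg hX1
        have hlT : 0 ≤ Real.log T := Real.log_nonneg hT1
        have hle : min c₁ (min c₂ c₃) * κ * (Real.log X / Real.log M) * Real.log T ≤
            c₃ * κ * (Real.log X / Real.log M) * Real.log T := by gcongr
        have : ((Icc M (M + ⌊X⌋₊)).filter (fun N : ℕ =>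
            c₃ * κ * (Real.log X / Real.log M) * Real.log T ≤
              |(P f N : ℝ) - κ * ∫ t in (2 : ℝ)..N, 1 / Real.log t|)).card ≤
            ((Icc M (M + ⌊X⌋₊)).filter (fun N : ℕ =>
            min c₁ (min c₂ c₃) * κ * (Real.log X / Real.log M) * Real.log T ≤
              |(P f N : ℝ) - κ * ∫ t in (2 : ℝ)..N, 1 / Real.log t|)).card := by
          apply Finset.card_le_card
          intro n hn
          rw [Finset.mem_filter] at hn ⊢
          exact ⟨hn.1, hle.trans hn.2⟩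
        exact_mod_cast this
  refine ⟨main, fun κ K hκ => ?_⟩
  have hdeg : 0 < (X ^ 2 + C 1 : ℤ[X]).natDegree := by
    rw [natDegree_X_pow_add_C]; norm_num
  obtain ⟨c, hc, -, T₀, X₀, h⟩ := main (X ^ 2 + C 1) hdeg
  -- choose `T`
  set T : ℝ := max (max T₀ 1) (Real.exp (2 * (|K| + 1) / (c * κ))) with hT
  have hT1 : 1 ≤ T := (le_max_right _ _).trans (le_max_left _ _)
  have hTT : T₀ ≤ T := (le_max_left _ _).trans (le_max_left _ _)
  have hTe : Real.exp (2 * (|K| + 1) / (c * κ)) ≤ T := le_max_right _ _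
  have hlT : 2 * (|K| + 1) / (c * κ) ≤ Real.log T := by
    rw [Real.le_log_iff_exp_le (by linarith)]
    exact hTe
  refine ⟨Real.exp (-T) / 12, by positivity, 3 * max X₀ (max (Real.exp T) 4), fun Y hY => ?_⟩
  set Z : ℝ := Y / 3 with hZ
  have hZX : X₀ ≤ Z := by
    have := le_max_left X₀ (max (Real.exp T) 4)
    rw [hZ]; linarith
  have hZT : Real.exp T ≤ Z := by
    have h1 := le_max_left (Real.exp T) 4
    have h2 := le_max_right X₀ (max (Real.exp T) 4)
    rw [hZ]; linarith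
  have hZ4 : 4 ≤ Z := by
    have h1 := le_max_right (Real.exp T) 4
    have h2 := le_max_right X₀ (max (Real.exp T) 4)
    rw [hZ]; linarith
  have hTZ : T ≤ Real.log Z := by
    rw [Real.le_log_iff_exp_le (by linarith)]
    exact hZT
  have hM : Z ≤ ((⌈Z⌉₊ : ℕ) : ℝ) := Nat.le_ceil _
  have hM2 : ((⌈Z⌉₊ : ℕ) : ℝ) < Z + 1 := Nat.ceil_lt_add_one (by linarith)
  obtain ⟨-, h2⟩ := h Z hZX T hTT hTZ ⌈Z⌉₊ hM
  have h3 := h2 κ hκ.le
  have hlZ : 0 < Real.log Z := Real.log_pos (by linarith)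
  have hlM : Real.log ((⌈Z⌉₊ : ℕ) : ℝ) < 2 * Real.log Z := by
    have e1 : ((⌈Z⌉₊ : ℕ) : ℝ) < Z ^ 2 := by nlinarith
    have e2 := Real.log_lt_log (by linarith) e1
    rw [Real.log_pow] at e2
    exact_mod_cast e2
  have hlM0 : 0 < Real.log ((⌈Z⌉₊ : ℕ) : ℝ) := Real.log_pos (by linarith)
  have hratio : 1 / 2 ≤ Real.log Z / Real.log ((⌈Z⌉₊ : ℕ) : ℝ) := by
    rw [div_le_div_iff₀ (by norm_num) hlM0]
    linarith
  have hbig : K < c * κ * (Real.log Z / Real.log ((⌈Z⌉₊ : ℕ) : ℝ)) * Real.log T := by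
    have e1 : c * κ * (1 / 2) * (2 * (|K| + 1) / (c * κ)) ≤
        c * κ * (Real.log Z / Real.log ((⌈Z⌉₊ : ℕ) : ℝ)) * Real.log T := by gcongr
    have e2 : c * κ * (1 / 2) * (2 * (|K| + 1) / (c * κ)) = |K| + 1 := by
      field_simp
    rw [e2] at e1
    linarith [le_abs_self K]
  have hsub : ((Icc ⌈Z⌉₊ (⌈Z⌉₊ + ⌊Z⌋₊)).filter (fun N : ℕ =>
      c * κ * (Real.log Z / Real.log ((⌈Z⌉₊ : ℕ) : ℝ)) * Real.log T ≤
        |(P (X ^ 2 + C 1) N : ℝ) - κ * ∫ t in (2 : ℝ)..N, 1 / Real.log t|)).card ≤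
      ((Icc 1 ⌊Y⌋₊).filter (fun N : ℕ => K <
        |(((Icc 1 N).filter (fun m : ℕ => (m ^ 2 + 1).Prime)).card : ℝ) -
          κ * ∫ t in (2 : ℝ)..N, 1 / Real.log t|)).card := by
    apply Finset.card_le_card
    intro N hN
    rw [Finset.mem_filter, Finset.mem_Icc] at hN ⊢
    obtain ⟨⟨hN1, hN2⟩, hN3⟩ := hN
    have hP : P (X ^ 2 + C 1) N = ((Icc 1 N).filter (fun m : ℕ => (m ^ 2 + 1).Prime)).card := by
      unfold P
      congr 1
      apply Finset.filter_congr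
      intro m _
      have : (X ^ 2 + C 1 : ℤ[X]).eval (m : ℤ) = ((m ^ 2 + 1 : ℕ) : ℤ) := by simp
      rw [this, Int.natAbs_natCast]
    rw [hP] at hN3
    refine ⟨⟨?_, ?_⟩, lt_of_lt_of_le hbig hN3⟩
    · have : 1 ≤ ⌈Z⌉₊ := Nat.one_le_iff_ne_zero.2 (by
        intro h0
        rw [Nat.ceil_eq_zero] at h0
        linarith)
      omega
    · apply Nat.le_floor
      have e1 : (N : ℝ) ≤ ((⌈Z⌉₊ + ⌊Z⌋₊ : ℕ) : ℝ) := by exact_mod_cast hN2
      have e2 : ((⌊Z⌋₊ : ℕ) : ℝ) ≤ Z := Nat.floor_le (by linarith)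
      push_cast at e1
      have e3 : Y = 3 * Z := by rw [hZ]; ring
      rw [e3]
      linarith
  have hsub' : (((Icc ⌈Z⌉₊ (⌈Z⌉₊ + ⌊Z⌋₊)).filter (fun N : ℕ =>
      c * κ * (Real.log Z / Real.log ((⌈Z⌉₊ : ℕ) : ℝ)) * Real.log T ≤
        |(P (X ^ 2 + C 1) N : ℝ) - κ * ∫ t in (2 : ℝ)..N, 1 / Real.log t|)).card : ℝ) ≤
      (((Icc 1 ⌊Y⌋₊).filter (fun N : ℕ => K <
        |(((Icc 1 N).filter (fun m : ℕ => (m ^ 2 + 1).Prime)).card : ℝ) -
          κ * ∫ t in (2 : ℝ)..N, 1 / Real.log t|)).card : ℝ) := by exact_mod_cast hsub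
  refine le_trans ?_ (h3.trans hsub')
  have e3 : Y = 3 * Z := by rw [hZ]; ring
  rw [e3]
  have e4 : 0 < Real.exp (-T) := Real.exp_pos _
  nlinarith

end Pool.Agent.Results.MP_f1a94e_nt.VoidFrequency
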